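import Mathlib
import Pool.Agent.P.MP_abbe90_al.Defs
import Pool.Agent.P.MP_abbe90_al.Example

namespace Pool.Agent.Results.MP_abbe90_al.NotYD

open Pool.Agent.P.MP_abbe90_al

universe u v

/-- Over every field there is a five-dimensional rack bialgebra that is not a Yetter-Drinfeld rack
over any bialgebra. -/
theorem result (k : Type u) [Field k] :
    ∃ (C : Type u) (_ : AddCommGroup C) (_ : Module k C) (_ : Coalgebra k C)
      (R : RackBialgebra k C), Module.finrank k C = 5 ∧
        ∀ (H : Type v) [Ring H] [Bialgebra k H], IsEmpty (YDRack R H) :=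
  ⟨V k, inferInstance, inferInstance, inferInstance, rack k, finrank_V k, not_yd k⟩

end Pool.Agent.Results.MP_abbe90_al.NotYD
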